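import Pool.Agent.helper62.VD.SpecE

/-!
# MP_07c750 (QUE, weight 10), project VD, block E, row EVN: the mean ergodic theorem on the quotient
-/

set_option autoImplicit false

open MeasureTheory Filter Set Topology
open scoped ENNReal

namespace Pool.Agent.VDE

noncomputable section

theorem EVN_proof (h1 : VQE.VNA_stmt) (h2 : ERD_stmt) : EVN_stmt := by
  intro Γ S _ _ _ _ _ _ μ F0 K d f hB h ht
  obtain ⟨r1, r2, r3, r4, r5, -, r7⟩ := h2 Γ S μ F0 K d f hB
  have hcnt : Countable Γ := hB.cnt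
  have hfin : IsFiniteMeasure (μ.restrict F0) :=
    ⟨by rw [Measure.restrict_apply_univ]; exact hB.fin⟩
  have hc1 : ∀ t, Continuous (f t) := fun t => hB.fcn.comp (continuous_const.prodMk continuous_id)
  have hc2 : ∀ g, Continuous fun t => h (f t g) := fun g =>
    ht.cont.comp (hB.fcn.comp (continuous_id.prodMk continuous_const))
  have hii : ∀ g a b, IntervalIntegrable (fun t => h (f t g)) volume a b := fun g a b =>
    (hc2 g).intervalIntegrable a b
  have hinv : ∀ (γ : Γ) (t : ℝ) (g : S), h (f t (γ • g)) = h (f t g) := by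
    intro γ t g
    rw [hB.fe, ht.inv]
  set ν : Measure S := μ.restrict F0 with hν
  set T : S → S := fun g => rd Γ F0 (f 1 g) with hT
  set R : S → S := fun g => rd Γ F0 (f (-1) g) with hR
  have hfg1 : ∀ g, f (-1) (f 1 g) = g := fun g => by
    rw [← hB.fa, neg_add_cancel, hB.f0]
  have hfg2 : ∀ g, f 1 (f (-1) g) = g := fun g => by
    rw [← hB.fa, add_neg_cancel, hB.f0]
  have hTm : MeasurePreserving T ν ν := r7 (f 1) (hB.fm 1).measurable (fun γ g => hB.fe γ 1 g) (hB.fm 1)
  have hRm : MeasurePreserving R ν ν := r7 (f (-1)) (hB.fm (-1)).measurable (fun γ g => hB.fe γ (-1) g) (hB.fm (-1))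
  have hRT : ∀ᵐ w ∂ν, R (T w) = w := by
    rw [hν, ae_restrict_iff' hB.meas]
    refine Eventually.of_forall fun w hw => ?_
    obtain ⟨γ, hγ⟩ := r4 (f 1 w)
    show rd Γ F0 (f (-1) (rd Γ F0 (f 1 w))) = w
    rw [hγ, hB.fe, r2, hfg1, r3 w hw]
  have hTR : ∀ᵐ w ∂ν, T (R w) = w := by
    rw [hν, ae_restrict_iff' hB.meas]
    refine Eventually.of_forall fun w hw => ?_
    obtain ⟨γ, hγ⟩ := r4 (f (-1) w)
    show rd Γ F0 (f 1 (rd Γ F0 (f (-1) w))) = w
    rw [hγ, hB.fe, r2, hfg2, r3 w hw]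
  set H : S → ℝ := fun g => ∫ s in (0 : ℝ)..1, h (f s g) with hH
  have hHc : Continuous H := by
    have h2 : Continuous (Function.uncurry fun (g : S) (s : ℝ) => h (f s g)) :=
      ht.cont.comp (hB.fcn.comp (continuous_snd.prodMk continuous_fst))
    exact intervalIntegral.continuous_parametric_intervalIntegral_of_continuous' h2 0 1
  have hb0 : ∀ (g : S) (a b : ℝ), |∫ s in a..b, h (f s g)| ≤ |b - a| := by
    intro g a b
    have h1 : ‖∫ s in a..b, h (f s g)‖ ≤ 1 * |b - a| :=
      intervalIntegral.norm_integral_le_of_norm_le_const fun s _ => ht.bd _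
    rwa [one_mul] at h1
  have hHb : ∀ g, |H g| ≤ 1 := fun g => by
    have h1 := hb0 g 0 1
    rwa [sub_zero, abs_one] at h1
  have hHi : ∀ (γ : Γ) g, H (γ • g) = H g := by
    intro γ g
    simp only [hH, hinv]
  have itT : ∀ (j : ℕ) g, ∃ γ : Γ, T^[j] g = γ • f j g := by
    intro j g
    induction j with
    | zero =>
      refine ⟨1, ?_⟩
      rw [Function.iterate_zero, id_eq, Nat.cast_zero, hB.f0, one_smul]
    | succ j ih =>
      obtain ⟨γ, hγ⟩ := ih
      obtain ⟨γ', hγ'⟩ := r4 (f 1 (f j g))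
      refine ⟨γ', ?_⟩
      rw [Function.iterate_succ_apply', hγ]
      show rd Γ F0 (f 1 (γ • f j g)) = _
      rw [hB.fe, r2, hγ', ← hB.fa, Nat.cast_succ, add_comm]
  have hshift : ∀ (a b : ℝ) (g : S), ∫ s in (0 : ℝ)..b, h (f s (f a g)) = ∫ s in a..(b + a), h (f s g) := by
    intro a b g
    have e : ∀ s, f s (f a g) = f (s + a) g := fun s => (hB.fa s a g).symm
    simp only [e]
    rw [intervalIntegral.integral_comp_add_right (fun x => h (f x g)) a, zero_add]
  have sumT : ∀ (n : ℕ) g, ∑ j ∈ Finset.range n, H (T^[j] g) = ∫ s in (0 : ℝ)..n, h (f s g) := by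
    intro n g
    induction n with
    | zero => simp
    | succ n ih =>
      obtain ⟨γ, hγ⟩ := itT n g
      rw [Finset.sum_range_succ, ih, hγ, hHi]
      show (∫ s in (0 : ℝ)..n, h (f s g)) + (∫ s in (0 : ℝ)..1, h (f s (f n g))) = _
      rw [hshift, Nat.cast_succ, add_comm (1 : ℝ),
        intervalIntegral.integral_add_adjacent_intervals (hii g _ _) (hii g _ _)]
  have avT : ∀ (n : ℕ) g, av f h n g = (n : ℝ)⁻¹ * ∑ j ∈ Finset.range n, H (T^[j] g) := by
    intro n g
    rw [sumT]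
    rfl
  obtain ⟨u₁, ns, hu₁, hns, c1', -, c3'⟩ := h1 S ν T R H hTm hRm hRT hTR hHc.measurable hHb
  have hnst : Tendsto ns atTop atTop := hns.tendsto_atTop
  have havb : ∀ (n : ℕ) g, |av f h n g| ≤ 1 := by
    intro n g
    unfold av
    rcases Nat.eq_zero_or_pos n with h0 | h0
    · rw [h0, Nat.cast_zero, inv_zero, zero_mul, abs_zero]
      exact zero_le_one
    · have hn : (0 : ℝ) < n := by exact_mod_cast h0
      have h3 := hb0 g 0 n
      rw [sub_zero, abs_of_pos hn] at h3
      rw [abs_mul, abs_of_pos (inv_pos.2 hn)]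
      calc (n : ℝ)⁻¹ * |∫ s in (0 : ℝ)..n, h (f s g)| ≤ (n : ℝ)⁻¹ * n := mul_le_mul_of_nonneg_left h3 (inv_pos.2 hn).le
        _ = 1 := inv_mul_cancel₀ hn.ne'
  set u₀ : S → ℝ := fun g => max (-1) (min 1 (u₁ g)) with hu₀d
  have hu₀ : Measurable u₀ := measurable_const.max (measurable_const.min hu₁)
  have hub : ∀ g, |u₀ g| ≤ 1 := fun g => abs_le.2 ⟨le_max_left _ _, max_le (by norm_num) (min_le_left _ _)⟩
  have hae : ∀ᵐ g ∂ν, u₀ g = u₁ g := by
    filter_upwards [c1'] with g hg
    have hg' : Tendsto (fun k => av f h (ns k) g) atTop (𝓝 (u₁ g)) := by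
      simp only [avT]
      exact hg
    have h3 : |u₁ g| ≤ 1 := le_of_tendsto hg'.abs (Eventually.of_forall fun k => havb (ns k) g)
    rw [abs_le] at h3
    show max (-1) (min 1 (u₁ g)) = u₁ g
    rw [min_eq_right h3.2, max_eq_right h3.1]
  have c1 : ∀ᵐ g ∂ν, Tendsto (fun k => ((ns k : ℕ) : ℝ)⁻¹ * ∑ j ∈ Finset.range (ns k), H (T^[j] g)) atTop (𝓝 (u₀ g)) := by
    filter_upwards [c1', hae] with g h1 h2
    rw [h2]
    exact h1
  have c3 : Tendsto (fun n : ℕ => ∫ g, ((n : ℝ)⁻¹ * (∑ j ∈ Finset.range n, H (T^[j] g)) - u₀ g) ^ 2 ∂ν) atTop (𝓝 0) := by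
    refine c3'.congr fun n => ?_
    refine integral_congr_ae ?_
    filter_upwards [hae] with g h2
    rw [h2]
  have avi : ∀ (T : ℝ) (γ : Γ) (g : S), av f h T (γ • g) = av f h T g := by
    intro T γ g
    unfold av
    simp only [hinv]
  -- almost everywhere convergence along a subsequence
  have hP : ∀ᵐ g ∂μ, Tendsto (fun k => av f h (ns k) g) atTop (𝓝 (u₀ (rd Γ F0 g))) := by
    set P : S → Prop := fun g => Tendsto (fun k => av f h (ns k) g) atTop (𝓝 (u₀ (rd Γ F0 g))) with hP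
    have hPi : ∀ (γ : Γ) g, P (γ • g) ↔ P g := by
      intro γ g
      simp only [hP, r2, avi]
    have hPF : ∀ᵐ g ∂μ, g ∈ F0 → P g := by
      rw [← ae_restrict_iff' hB.meas]
      have c0 : ∀ᵐ g ∂ν, g ∈ F0 := by
        rw [hν]
        exact ae_restrict_mem hB.meas
      filter_upwards [c0, c1] with g g0 g1
      rw [hP]
      simp only [r3 g g0, avT]
      exact g1
    have hcover : {g | ¬ P g} ⊆ ⋃ γ : Γ, (fun g => γ • g) ⁻¹' {g | ¬ (g ∈ F0 → P g)} := by
      intro g hg
      obtain ⟨γ, hγ⟩ := r4 g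
      rw [mem_iUnion]
      refine ⟨γ, ?_⟩
      rw [mem_preimage, mem_ofPred_eq, Classical.not_imp, hPi]
      exact ⟨hγ ▸ r1 g, hg⟩
    rw [ae_iff]
    refine measure_mono_null hcover ?_
    rw [measure_iUnion_null_iff]
    intro γ
    exact (hB.mact γ).quasiMeasurePreserving.preimage_null (ae_iff.1 hPF)
  refine ⟨fun g => u₀ (rd Γ F0 g), hu₀.comp r5, fun g => hub _, fun γ g => by simp only [r2], ?_, ?_⟩
  · intro t
    have hdiff : ∀ (n : ℕ) g, |av f h n (f t g) - av f h n g| ≤ 2 * |t| * (n : ℝ)⁻¹ := by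
      intro n g
      have e1 : av f h n (f t g) - av f h n g =
          (n : ℝ)⁻¹ * ((∫ s in (n : ℝ)..(n + t), h (f s g)) - ∫ s in (0 : ℝ)..t, h (f s g)) := by
        unfold av
        rw [hshift, ← mul_sub]
        congr 1
        have a1 := intervalIntegral.integral_add_adjacent_intervals (hii g 0 t) (hii g t (n + t))
        have a2 := intervalIntegral.integral_add_adjacent_intervals (hii g 0 n) (hii g n (n + t))
        linarith
      rw [e1, abs_mul, abs_of_nonneg (inv_nonneg.2 (Nat.cast_nonneg n)), mul_comm]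
      refine mul_le_mul_of_nonneg_right ?_ (inv_nonneg.2 (Nat.cast_nonneg n))
      refine (abs_sub _ _).trans ?_
      have b1 := hb0 g n (n + t)
      have b2 := hb0 g 0 t
      rw [add_sub_cancel_left] at b1
      rw [sub_zero] at b2
      linarith
    have h2n : Tendsto (fun k => 2 * |t| * ((ns k : ℕ) : ℝ)⁻¹) atTop (𝓝 0) := by
      have h1 := ((tendsto_inv_atTop_nhds_zero_nat (𝕜 := ℝ)).comp hnst).const_mul (2 * |t|)
      rw [mul_zero] at h1
      exact h1
    filter_upwards [hP, (hB.fm t).quasiMeasurePreserving.ae hP] with g g1 g2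
    have d1 : Tendsto (fun k => av f h (ns k) (f t g) - av f h (ns k) g) atTop (𝓝 0) :=
      squeeze_zero_norm (fun k => hdiff (ns k) g) h2n
    have d2 := g2.sub g1
    have d3 := tendsto_nhds_unique d1 d2
    linarith
  · refine c3.congr fun n => ?_
    rw [hν]
    refine setIntegral_congr_fun hB.meas fun g hg => ?_
    simp only [avT, r3 g hg]

end

end Pool.Agent.VDE
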