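import Pool.Agent.helper11.VD.Spec3d

/-!
# Project VD (MP_07c750_an), block E: the final row `IUWD` (the uniform weak law and its stability) from `SFN`, the facts about the flow and block B3
-/

set_option autoImplicit false

open scoped ContDiff Topology InnerProductSpace ENNReal ComplexConjugate
open MeasureTheory Filter Set

namespace Pool.Agent.VDE

open VD

/-- the facts about the flow, uniformly in the class (helper80) -/
def FLD_stmt : Prop := ∀ (d : ℕ) (Γ : Type) [Group Γ] [MulAction Γ (V d)] (K : Set (V d)) (k : ℝ) (B : ℕ → ℕ → ℝ) (χ : V d → ℝ), FdK Γ K → Ctf K χ →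
  ∃ C : ℝ, ∀ (F0 : Set (V d)) (G : V d → V d →L[ℝ] V d) (Φ : ℝ → P d → P d), FDX Γ K F0 → Cls Γ K k B G → IsFlow G Φ → FlD Γ K F0 G Φ C (dP Γ χ)

/-- the volume lemma and shadowing for the geodesic flow (block B3) -/
def GSD_stmt : Prop := ∀ (d : ℕ) (Γ : Type) [Group Γ] [MulAction Γ (V d)] (K F0 : Set (V d)) (k : ℝ) (B : ℕ → ℕ → ℝ) (χ : V d → ℝ) (G : V d → V d →L[ℝ] V d) (Φ : ℝ → P d → P d), 2 ≤ d → FdK Γ K → FDX Γ K F0 → Ctf K χ → Cls Γ K k B G → IsFlow G Φ →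
  GVD G Φ (dP Γ χ) ∧ SHBD G Φ (dP Γ χ)

/-- **Row IUD**: `IUWD` -/
theorem IUD_proof (hSFN : SFN_stmt) (hFLD : FLD_stmt) (hGSD : GSD_stmt) (hGFL : GFL_stmt) (hDCT : DCT_stmt) : IUWD_stmt := by
  intro d Γ _ _ K F0 k B G h e v0 hd hK hF hG hh he hv
  obtain ⟨Φ, hΦ⟩ := hGFL d Γ K G hK hG.met hG.isom
  obtain ⟨χ, hχ⟩ := hDCT d K hK.compact
  obtain ⟨C, hC⟩ := hFLD d Γ K k B χ hK hχ
  have hfl := hC F0 G Φ hF hG hΦ
  obtain ⟨hgv, hsh⟩ := hGSD d Γ K F0 k B χ G Φ hd hK hF hχ hG hΦ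
  have hth : THV Γ h := by
    refine ⟨hh.smooth.continuous, hh.inv, fun x => ?_⟩
    rw [abs_le]
    exact ⟨by linarith [(hh.bd x).1], (hh.bd x).2⟩
  exact hSFN d Γ K F0 G Φ C (dP Γ χ) hd hfl hgv hsh h hth e v0 he hv

end Pool.Agent.VDE
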