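import Pool.Agent.helper79.VDE.ERD
import Pool.Agent.helper5.VDE.EUC
import Pool.Agent.helper2.VDE.ESP
import Pool.Agent.helper23.VDE.ECV
import Pool.Agent.helper20.VDE.EDJ
import Pool.Agent.helper98.VDE.EMX
import Pool.Agent.helper62.VDE.EVN
import Pool.Agent.helper29.VDE.EER
import Pool.Agent.helper75.VDE.EPR
import Pool.Agent.helper83.VDE.ECT
import Pool.Agent.helper78.VDE.EGL
import Pool.Agent.helper69.VDE.EWK
import Pool.Agent.helper57.VDE.SNM
import Pool.Agent.helper57.VDE.SLF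
import Pool.Agent.helper95.VDE.SLP
import Pool.Agent.helper57.VDE.SLI
import Pool.Agent.helper31.VDE.SMG
import Pool.Agent.helper3.VDE.SCN
import Pool.Agent.helper89.VDE.SBF
import Pool.Agent.helper51.VDE.SER
import Pool.Agent.helper2.VDE.SGR
import Pool.Agent.helper30.VDE.SMS
import Pool.Agent.helper25.VDE.SFN
import Pool.Agent.helper89.VQE.VNA

/-!
# Project VD (MP_07c750_an), block E (ergodicity of the geodesic flow by Bowen's argument, the uniform weak law and its stability): ALL ROWS ARE CLOSED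
-/

set_option autoImplicit false

namespace Pool.Agent.VDE

theorem E_ERD : ERD_stmt := ERD_proof
theorem E_EUC : EUC_stmt := EUC_proof
theorem E_ESP : ESP_stmt := ESP_proof E_EUC
theorem E_ECV : ECV_stmt := ECV_proof E_ERD E_EUC
theorem E_EDJ : EDJ_stmt := EDJ_proof E_ERD
theorem E_EMX : EMX_stmt := EMX_proof E_EUC E_ESP E_ECV E_EDJ
theorem E_EVN : EVN_stmt := EVN_proof VQE.VNA_proof E_ERD
theorem E_EER : EER_stmt := EER_proof E_ERD E_EUC E_EVN E_EMX
theorem E_EPR : EPR_stmt := EPR_proof E_ERD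
theorem E_ECT : ECT_stmt := ECT_proof E_EUC E_EPR
theorem E_EGL : EGL_stmt := EGL_proof E_EUC E_ECT
theorem E_EWK : EWK_stmt := EWK_proof E_EER E_EGL
theorem E_SNM : SNM_stmt := SNM_proof
theorem E_SLF : SLF_stmt := SLF_proof E_SNM
theorem E_SLP : SLP_stmt := SLP_proof E_SNM E_SLF
theorem E_SLI : SLI_stmt := SLI_proof E_SNM E_SLF E_SLP
theorem E_SMG : SMG_stmt := SMG_proof E_SNM
theorem E_SCN : SCN_stmt := SCN_proof E_SNM
theorem E_SBF : SBF_stmt := SBF_proof E_SNM E_SLF E_SLP E_SLI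
theorem E_SER : SER_stmt := SER_proof E_EWK E_SBF E_SCN E_SLF E_SMG E_SNM
theorem E_SGR : SGR_stmt := SGR_proof
theorem E_SMS : SMS_stmt := SMS_proof E_SNM
theorem E_SFN : SFN_stmt := SFN_proof E_SER E_SNM E_SLF E_SGR E_SMS E_SMG

end Pool.Agent.VDE
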